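import Pool.Agent.H32.RQ.Targets

set_option autoImplicit false

open Finset Pool.Agent.H32.RQ

namespace Pool.Agent.H44.RQ

/-- the additive map `l ↦ ∑ l i * m i a` -/
def phi {s : ℕ} (m : Fin s → Fin s → ℤ) (a : Fin s) : (Fin s → ℤ) →+ ℤ where
  toFun l := ∑ i, l i * m i a
  map_zero' := by simp
  map_add' l l' := by simp [add_mul, sum_add_distrib]

theorem phi_apply {s : ℕ} (m : Fin s → Fin s → ℤ) (a : Fin s) (l : Fin s → ℤ) :
    phi m a l = ∑ i, l i * m i a := rfl

theorem phi_single {s : ℕ} (m : Fin s → Fin s → ℤ) (a i : Fin s) (u : ℤ) :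
    phi m a (Pi.single i u) = u * m i a := by
  rw [phi_apply, Finset.sum_eq_single i]
  · simp
  · intro j _ hj
    simp [Pi.single_eq_of_ne hj]
  · intro h
    exact absurd (mem_univ i) h

/-- a sum over a vector with at most three nonzero coordinates -/
theorem sum_three {s : ℕ} (l : Fin s → ℤ) (e : Fin s → ℤ) (D J : ℤ) (hD : 0 ≤ D) (hJ : 0 ≤ J)
    (h3 : (Finset.univ.filter fun i => l i ≠ 0).card ≤ 3) (hl : ∀ i, |l i| ≤ D)
    (he : ∀ i, |e i| ≤ J) : |∑ i, l i * e i| ≤ 3 * (D * J) := by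
  have h1 : ∑ i, l i * e i = ∑ i ∈ Finset.univ.filter (fun i => l i ≠ 0), l i * e i := by
    rw [Finset.sum_filter]
    refine Finset.sum_congr rfl fun i _ => ?_
    by_cases h : l i = 0
    · simp [h]
    · simp [h]
  rw [h1]
  refine (Finset.abs_sum_le_sum_abs _ _).trans ?_
  have h2 : ∀ i ∈ Finset.univ.filter (fun i => l i ≠ 0), |l i * e i| ≤ D * J := by
    intro i _
    rw [abs_mul]
    exact mul_le_mul (hl i) (he i) (abs_nonneg _) hD
  refine (Finset.sum_le_card_nsmul _ _ _ h2).trans ?_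
  rw [nsmul_eq_mul]
  have h4 : (((Finset.univ.filter fun i => l i ≠ 0).card : ℕ) : ℤ) ≤ 3 := by exact_mod_cast h3
  exact mul_le_mul_of_nonneg_right h4 (mul_nonneg hD hJ)

/-- the structure of the symmetric matrix -/
theorem struc (hSPN : T_SPN) {s b c A J : ℕ} {x : Fin s → ℤ} (hs : 3 ≤ s) (hb : 1 ≤ b)
    (hA : 9 ≤ A) (hc : 9 * b ^ 4 ≤ c * A) (hJ : 1 ≤ J) (hx : Gd b c x) (t : ℤ)
    (m e : Fin s → Fin s → ℤ) (hm : ∀ i l, m i l = m l i) (he : ∀ i l, |e i l| ≤ J)
    (hme : ∀ i l, t * (x i * x l) = 2 * A * J * m i l + e i l) :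
    ∃ α : ℤ, ∀ i l, m i l = α * (x i * x l) := by
  have hb' : (1 : ℤ) ≤ b := by exact_mod_cast hb
  have hA' : (9 : ℤ) ≤ A := by exact_mod_cast hA
  have hJ' : (1 : ℤ) ≤ J := by exact_mod_cast hJ
  have hc' : 9 * (b : ℤ) ^ 4 ≤ c * A := by exact_mod_cast hc
  have hb3 : (1 : ℤ) ≤ (b : ℤ) ^ 3 := one_le_pow₀ hb'
  have hb4 : (b : ℤ) ^ 4 = b ^ 3 * b := by ring
  obtain ⟨a, ha⟩ := hx.prm
  have key : ∀ d : Fin s, ∀ i j, phi m d (Pi.single j (x i) - Pi.single i (x j)) = 0 := by
    intro d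
    have hx1 : ∀ i, |x i| ≤ ((b ^ 4 : ℕ) : ℤ) := by
      intro i
      have := hx.bd i
      push_cast
      exact this
    refine hSPN s (b ^ 4) b x hs hb hx1 hx.sup (phi m d) ?_
    intro l h3 hl hlx
    -- the vector `z`
    set z : Fin s → ℤ := fun f => ∑ i, l i * m i f with hz
    have hl' : ∀ i, |l i| ≤ 3 * (b : ℤ) ^ 3 := by
      intro i
      have h := hl i
      push_cast at h
      have h2 : |l i| * (b : ℤ) ≤ 3 * (b : ℤ) ^ 3 * b := by
        calc |l i| * (b : ℤ) ≤ 3 * (b : ℤ) ^ 4 := h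
          _ = 3 * (b : ℤ) ^ 3 * b := by ring
      exact le_of_mul_le_mul_right h2 (by linarith)
    have hz1 : ∀ f, 2 * (A : ℤ) * |z f| ≤ 9 * (b : ℤ) ^ 3 := by
      intro f
      have h1 : 2 * (A : ℤ) * J * z f = - ∑ i, l i * e i f := by
        have h2 : ∑ i, l i * (2 * (A : ℤ) * J * m i f + e i f) = 0 := by
          calc ∑ i, l i * (2 * (A : ℤ) * J * m i f + e i f) = ∑ i, l i * (t * (x i * x f)) :=
                Finset.sum_congr rfl fun i _ => by rw [hme i f]
            _ = t * x f * ∑ i, l i * x i := by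
                rw [Finset.mul_sum]
                exact Finset.sum_congr rfl fun i _ => by ring
            _ = 0 := by rw [hlx, mul_zero]
        have h3 : ∑ i, l i * (2 * (A : ℤ) * J * m i f + e i f) =
            2 * (A : ℤ) * J * z f + ∑ i, l i * e i f := by
          rw [hz, Finset.mul_sum, ← Finset.sum_add_distrib]
          exact Finset.sum_congr rfl fun i _ => by ring
        linarith
      have h2 := sum_three l (fun i => e i f) (3 * (b : ℤ) ^ 3) J (by linarith) (by linarith)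
        h3 hl' (fun i => he i f)
      have h4 : 2 * (A : ℤ) * |z f| * J ≤ 9 * (b : ℤ) ^ 3 * J := by
        calc 2 * (A : ℤ) * |z f| * J = |2 * (A : ℤ) * J * z f| := by
              rw [abs_mul, abs_of_nonneg (show (0 : ℤ) ≤ 2 * (A : ℤ) * J by positivity)]
              ring
          _ = |∑ i, l i * e i f| := by rw [h1, abs_neg]
          _ ≤ 3 * (3 * (b : ℤ) ^ 3 * J) := h2
          _ = 9 * (b : ℤ) ^ 3 * J := by ring
      exact le_of_mul_le_mul_right h4 (by linarith)
    have hz2 : ∀ i j, |mnr x z i j| ≤ ((c * b ^ 3 : ℕ) : ℤ) := by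
      intro i j
      have h1 : |mnr x z i j| ≤ |x i| * |z j| + |x j| * |z i| := by
        unfold mnr
        refine (abs_sub _ _).trans ?_
        rw [abs_mul, abs_mul]
      have h2 : 2 * (A : ℤ) * |mnr x z i j| ≤ 2 * (c * A) * (b : ℤ) ^ 3 := by
        have e1 : (A : ℤ) ≥ 0 := by linarith
        calc 2 * (A : ℤ) * |mnr x z i j| ≤ 2 * (A : ℤ) * (|x i| * |z j| + |x j| * |z i|) := by
              gcongr
          _ = |x i| * (2 * (A : ℤ) * |z j|) + |x j| * (2 * (A : ℤ) * |z i|) := by ring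
          _ ≤ (b : ℤ) ^ 4 * (9 * (b : ℤ) ^ 3) + (b : ℤ) ^ 4 * (9 * (b : ℤ) ^ 3) :=
              add_le_add (mul_le_mul (hx.bd i) (hz1 j) (by positivity) (by positivity))
                (mul_le_mul (hx.bd j) (hz1 i) (by positivity) (by positivity))
          _ = 2 * (9 * (b : ℤ) ^ 4) * (b : ℤ) ^ 3 := by ring
          _ ≤ 2 * (c * A) * (b : ℤ) ^ 3 := by gcongr
      have h3 : |mnr x z i j| * (2 * (A : ℤ)) ≤ (c * (b : ℤ) ^ 3) * (2 * A) := by
        calc |mnr x z i j| * (2 * (A : ℤ)) = 2 * (A : ℤ) * |mnr x z i j| := by ring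
          _ ≤ 2 * (c * A) * (b : ℤ) ^ 3 := h2
          _ = _ := by ring
      push_cast
      exact le_of_mul_le_mul_right h3 (by linarith)
    have hz3 := hx.iso z hz2
    have hz4 : ∀ j, z j = x j * ∑ i, a i * z i := by
      intro j
      calc z j = (∑ i, a i * x i) * z j := by rw [ha, one_mul]
        _ = ∑ i, a i * (x i * z j) := by
            rw [Finset.sum_mul]
            exact Finset.sum_congr rfl fun i _ => by ring
        _ = ∑ i, a i * (x j * z i) := by
            refine Finset.sum_congr rfl fun i _ => ?_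
            have := hz3 i j
            unfold mnr at this
            rw [show x i * z j = x j * z i by linarith]
        _ = x j * ∑ i, a i * z i := by
            rw [Finset.mul_sum]
            exact Finset.sum_congr rfl fun i _ => by ring
    obtain ⟨j, hj⟩ := hx.big
    have hr : ∑ i, a i * z i = 0 := by
      by_contra hne
      have h1 : |x j| ≤ |z j| := by
        rw [hz4 j, abs_mul]
        have : 1 ≤ |∑ i, a i * z i| := Int.one_le_abs hne
        nlinarith [abs_nonneg (x j)]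
      have h2 := hz1 j
      have h3 : (b : ℤ) ^ 3 ≤ (b : ℤ) ^ 4 := by
        rw [hb4]
        nlinarith
      nlinarith [abs_nonneg (z j)]
    rw [phi_apply]
    have := hz4 d
    rw [hr, mul_zero] at this
    exact this
  have h1 : ∀ d i j, x i * m j d = x j * m i d := by
    intro d i j
    have := key d i j
    rw [map_sub, phi_single, phi_single] at this
    linarith
  set w : Fin s → ℤ := fun d => ∑ i, a i * m i d with hw
  have h2 : ∀ j d, m j d = x j * w d := by
    intro j d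
    calc m j d = (∑ i, a i * x i) * m j d := by rw [ha, one_mul]
      _ = ∑ i, a i * (x i * m j d) := by
          rw [Finset.sum_mul]
          exact Finset.sum_congr rfl fun i _ => by ring
      _ = ∑ i, a i * (x j * m i d) := Finset.sum_congr rfl fun i _ => by rw [h1 d i j]
      _ = x j * w d := by
          rw [hw, Finset.mul_sum]
          exact Finset.sum_congr rfl fun i _ => by ring
  have h3 : ∀ d, w d = x d * ∑ i, a i * w i := by
    intro d
    calc w d = ∑ i, a i * m d i := by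
          rw [hw]
          exact Finset.sum_congr rfl fun i _ => by rw [hm i d]
      _ = ∑ i, a i * (x d * w i) := Finset.sum_congr rfl fun i _ => by rw [h2 d i]
      _ = x d * ∑ i, a i * w i := by
          rw [Finset.mul_sum]
          exact Finset.sum_congr rfl fun i _ => by ring
  refine ⟨∑ i, a i * w i, fun i l => ?_⟩
  rw [h2 i l, h3 l]
  ring

/-- the frequencies -/
theorem freq (hSPN : T_SPN) {s b c A J Q : ℕ} [NeZero Q] {x : Fin s → ℤ} (hs : 3 ≤ s)
    (hb : 1 ≤ b) (hA : 9 ≤ A) (hc : 9 * b ^ 4 ≤ c * A) (hJ : 1 ≤ J) (hQ : Q = 2 * A * J)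
    (hx : Gd b c x) (t : ZMod Q)
    (ht : ∀ p : Mon s, |(t * ((nu x p : ℤ) : ZMod Q)).valMinAbs| < (J : ℤ)) :
    ∃ n : ℤ, t = (n : ZMod Q) ∧ |n| * (b : ℤ) ^ 8 ≤ 4 * J := by
  set t₀ : ℤ := (t.val : ℤ) with ht₀
  have htt : (t₀ : ZMod Q) = t := by
    rw [ht₀]
    push_cast
    exact ZMod.natCast_zmod_val t
  set e : Fin s → Fin s → ℤ := fun i l => (t * ((x i * x l : ℤ) : ZMod Q)).valMinAbs with he
  have hesym : ∀ i l, e i l = e l i := by
    intro i l
    simp only [he]
    rw [mul_comm (x i) (x l)]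
  have heb : ∀ i l, |e i l| < (J : ℤ) := by
    intro i l
    rcases le_total i l with h | h
    · exact ht ⟨(i, l), h⟩
    · rw [hesym]
      exact ht ⟨(l, i), h⟩
  have hex : ∀ i l, ∃ u : ℤ, t₀ * (x i * x l) = Q * u + e i l := by
    intro i l
    have h1 : (((t₀ * (x i * x l) - e i l : ℤ)) : ZMod Q) = 0 := by
      push_cast
      rw [htt]
      simp only [he]
      rw [ZMod.coe_valMinAbs]
      push_cast
      ring
    rw [ZMod.intCast_zmod_eq_zero_iff_dvd] at h1
    obtain ⟨u, hu⟩ := h1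
    exact ⟨u, by linarith⟩
  have hQ0 : (Q : ℤ) ≠ 0 := by exact_mod_cast NeZero.ne Q
  choose m hm using hex
  have hmsym : ∀ i l, m i l = m l i := by
    intro i l
    have h1 := hm i l
    have h2 := hm l i
    rw [hesym l i] at h2
    have h3 : (Q : ℤ) * m i l = Q * m l i := by
      have : t₀ * (x i * x l) = t₀ * (x l * x i) := by ring
      linarith
    exact mul_left_cancel₀ hQ0 h3
  obtain ⟨α, hα⟩ := struc hSPN hs hb hA hc hJ hx t₀ m e hmsym (fun i l => (heb i l).le)
    (fun i l => by rw [hm i l, hQ]; push_cast; ring)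
  obtain ⟨i, hi⟩ := hx.big
  refine ⟨t₀ - Q * α, ?_, ?_⟩
  · push_cast
    rw [htt]
    simp
  have h1 : (t₀ - Q * α) * (x i * x i) = e i i := by
    have := hm i i
    rw [hα] at this
    linarith
  have h2 : |t₀ - Q * α| * (x i * x i) ≤ J := by
    have h3 : |t₀ - Q * α| * (x i * x i) = |e i i| := by
      rw [← h1, abs_mul, abs_of_nonneg (mul_self_nonneg (x i))]
    rw [h3]
    exact (heb i i).le
  have h3 : (b : ℤ) ^ 8 ≤ 4 * (x i * x i) := by
    have h4 : (0 : ℤ) ≤ (b : ℤ) ^ 4 := by positivity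
    have h5 : (b : ℤ) ^ 8 = (b : ℤ) ^ 4 * (b : ℤ) ^ 4 := by ring
    have h6 : x i * x i = |x i| * |x i| := (abs_mul_abs_self (x i)).symm
    rw [h5, h6]
    nlinarith
  calc |t₀ - Q * α| * (b : ℤ) ^ 8 ≤ |t₀ - Q * α| * (4 * (x i * x i)) := by gcongr
    _ = 4 * (|t₀ - Q * α| * (x i * x i)) := by ring
    _ ≤ 4 * J := by gcongr

open Classical in
/-- the number of the frequencies -/
theorem cnt (hSPN : T_SPN) {s b c A J Q : ℕ} [NeZero Q] {x : Fin s → ℤ} (hs : 3 ≤ s)
    (hb : 1 ≤ b) (hA : 9 ≤ A) (hc : 9 * b ^ 4 ≤ c * A) (hbJ : b ^ 8 ≤ J) (hQ : Q = 2 * A * J)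
    (hx : Gd b c x) :
    ((Finset.univ.filter fun t : ZMod Q => ∀ p : Mon s,
      |(t * ((nu x p : ℤ) : ZMod Q)).valMinAbs| < (J : ℤ)).card) * b ^ 8 ≤ 9 * J := by
  have hb8 : 1 ≤ b ^ 8 := Nat.one_le_pow _ _ hb
  have hJ : 1 ≤ J := hb8.trans hbJ
  set n : ℕ := 4 * J / b ^ 8 with hn
  have h1 : (Finset.univ.filter fun t : ZMod Q => ∀ p : Mon s,
      |(t * ((nu x p : ℤ) : ZMod Q)).valMinAbs| < (J : ℤ)) ⊆
      (Finset.Icc (-(n : ℤ)) n).image (fun a : ℤ => (a : ZMod Q)) := by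
    intro t ht
    rw [mem_filter] at ht
    obtain ⟨a, ha1, ha2⟩ := freq hSPN hs hb hA hc hJ hQ hx t ht.2
    rw [mem_image]
    refine ⟨a, ?_, ha1.symm⟩
    have h2 : a.natAbs ≤ n := by
      rw [hn, Nat.le_div_iff_mul_le (by omega)]
      have : ((a.natAbs * b ^ 8 : ℕ) : ℤ) ≤ ((4 * J : ℕ) : ℤ) := by
        push_cast
        exact ha2
      exact_mod_cast this
    rw [mem_Icc]
    omega
  have h2 : (Finset.univ.filter fun t : ZMod Q => ∀ p : Mon s,
      |(t * ((nu x p : ℤ) : ZMod Q)).valMinAbs| < (J : ℤ)).card ≤ 2 * n + 1 := by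
    refine (card_le_card h1).trans (card_image_le.trans ?_)
    rw [Int.card_Icc]
    omega
  have h3 : n * b ^ 8 ≤ 4 * J := Nat.div_mul_le_self _ _
  calc _ ≤ (2 * n + 1) * b ^ 8 := Nat.mul_le_mul_right _ h2
    _ = 2 * (n * b ^ 8) + b ^ 8 := by ring
    _ ≤ 9 * J := by omega

theorem pf_DIA (hSPN : T_SPN) (hCL2 : T_CL2) (hFJB : T_FJB) : T_DIA := by
  classical
  intro s b c A J Q _ x y hs hb hA hc hQ hbJ hx hxy
  have hb8 : 1 ≤ b ^ 8 := Nat.one_le_pow _ _ hb
  have hJ : 1 ≤ J := hb8.trans hbJ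
  have hnu : ∀ p : Mon s, nu y p = nu x p := by
    intro p
    rcases hxy with h | h
    · rw [h]
    · rw [h]
      unfold nu
      simp
  obtain ⟨-, htri, -⟩ := hFJB Q J hJ
  set g : ZMod Q → ℝ := fun t => ∏ p : Mon s, tri Q J (t * ((nu x p : ℤ) : ZMod Q)) with hg
  have hrr : ∀ j k, rr Q J x y j k = g (j + k) := by
    intro j k
    unfold rr
    rw [hg]
    refine Finset.prod_congr rfl fun p _ => ?_
    rw [hnu p, add_mul]
  have hsum : ∑ j : ZMod Q, ∑ k : ZMod Q, rr Q J x y j k = Q * ∑ t, g t := by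
    have h1 : ∀ j : ZMod Q, ∑ k : ZMod Q, rr Q J x y j k = ∑ t, g t := by
      intro j
      rw [← Equiv.sum_comp (Equiv.addLeft j) g]
      exact Finset.sum_congr rfl fun k _ => hrr j k
    rw [Finset.sum_congr rfl fun j _ => h1 j, Finset.sum_const, nsmul_eq_mul, Finset.card_univ,
      ZMod.card]
  have hgle : ∑ t, g t ≤ ((Finset.univ.filter fun t : ZMod Q => ∀ p : Mon s,
      |(t * ((nu x p : ℤ) : ZMod Q)).valMinAbs| < (J : ℤ)).card : ℝ) := by
    have h1 : ∀ t, g t ≤ if (∀ p : Mon s,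
        |(t * ((nu x p : ℤ) : ZMod Q)).valMinAbs| < (J : ℤ)) then 1 else 0 := by
      intro t
      split_ifs with h
      · exact Finset.prod_le_one (fun p _ => (htri _).1) (fun p _ => (htri _).2)
      · push Not at h
        obtain ⟨p, hp⟩ := h
        refine le_of_eq (Finset.prod_eq_zero (mem_univ p) ?_)
        unfold tri
        refine max_eq_left ?_
        have hJ0 : (0 : ℝ) < J := by exact_mod_cast hJ
        rw [sub_nonpos, le_div_iff₀ hJ0, one_mul]
        exact_mod_cast hp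
    refine (Finset.sum_le_sum fun t _ => h1 t).trans ?_
    rw [Finset.sum_boole]
  have hcnt := cnt hSPN hs hb hA hc hbJ hQ hx
  have hcnt' : ((Finset.univ.filter fun t : ZMod Q => ∀ p : Mon s,
      |(t * ((nu x p : ℤ) : ZMod Q)).valMinAbs| < (J : ℤ)).card : ℝ) * (b : ℝ) ^ 8 ≤ 9 * J := by
    exact_mod_cast hcnt
  have hQ0 : (0 : ℝ) < Q := by exact_mod_cast Nat.pos_of_ne_zero (NeZero.ne Q)
  have hQ' : (Q : ℝ) = 2 * A * J := by exact_mod_cast hQ
  have hA0 : (0 : ℝ) < A := by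
    have : 0 < A := by omega
    exact_mod_cast this
  unfold pp
  rw [hsum, div_mul_eq_mul_div, div_le_iff₀ (by positivity)]
  calc (Q : ℝ) * (∑ t, g t) * (2 * A * (b : ℝ) ^ 8) =
      (Q : ℝ) * (2 * A) * ((∑ t, g t) * (b : ℝ) ^ 8) := by ring
    _ ≤ (Q : ℝ) * (2 * A) * (9 * J) := by
        refine mul_le_mul_of_nonneg_left ?_ (by positivity)
        refine le_trans ?_ hcnt'
        gcongr
    _ = 9 * (Q : ℝ) ^ 2 := by
        rw [hQ']
        ring

end Pool.Agent.H44.RQ
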