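import Pool.Agent.H32.RQ.Targets

set_option autoImplicit false

open Finset Pool.Agent.H32.RQ

namespace Pool.Agent.H44.RQ

theorem card_cover {α ι : Type} [DecidableEq α] (S : Finset α) (P A B : α → Prop)
    (C : ι → α → Prop) (D : α → Prop) [DecidablePred P] [DecidablePred A] [DecidablePred B]
    [∀ i, DecidablePred (C i)] [DecidablePred D] (I : Finset ι) (h : ∀ x ∈ S, P x → A x ∨ (∃ i ∈ I, C i x) ∨ B x ∨ D x) :
    ((S.filter P).card : ℝ) ≤ ((S.filter A).card : ℝ) + (∑ i ∈ I, ((S.filter (C i)).card : ℝ)) +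
      ((S.filter B).card : ℝ) + ((S.filter D).card : ℝ) := by
  have h1 : S.filter P ⊆ ((S.filter A ∪ I.biUnion fun i => S.filter (C i)) ∪ S.filter B) ∪
      S.filter D := by
    intro x hx
    rw [mem_filter] at hx
    rcases h x hx.1 hx.2 with h | ⟨i, hi, h⟩ | h | h
    · exact mem_union_left _ (mem_union_left _ (mem_union_left _ (mem_filter.2 ⟨hx.1, h⟩)))
    · exact mem_union_left _ (mem_union_left _ (mem_union_right _
        (mem_biUnion.2 ⟨i, hi, mem_filter.2 ⟨hx.1, h⟩⟩)))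
    · exact mem_union_left _ (mem_union_right _ (mem_filter.2 ⟨hx.1, h⟩))
    · exact mem_union_right _ (mem_filter.2 ⟨hx.1, h⟩)
  have h2 := card_le_card h1
  have h3 := card_union_le ((S.filter A ∪ I.biUnion fun i => S.filter (C i)) ∪ S.filter B)
    (S.filter D)
  have h4 := card_union_le (S.filter A ∪ I.biUnion fun i => S.filter (C i)) (S.filter B)
  have h5 := card_union_le (S.filter A) (I.biUnion fun i => S.filter (C i))
  have h6 : (I.biUnion fun i => S.filter (C i)).card ≤ ∑ i ∈ I, (S.filter (C i)).card :=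
    card_biUnion_le
  have h7 : (S.filter P).card ≤ (S.filter A).card + (∑ i ∈ I, (S.filter (C i)).card) +
      (S.filter B).card + (S.filter D).card := by omega
  exact_mod_cast h7

theorem RB_mono {s : ℕ} {d r : ℝ} (hr : 0 ≤ r) {A : ℕ} {c : Fin 2 → Mon s → ℤ} (h : RB d 0 A c) :
    RB d r A c := by
  obtain ⟨x, h1, h2, h3, h4⟩ := h
  refine ⟨x, h1, h2, fun i => (h3 i).trans ?_, h4⟩
  rw [zero_mul]
  positivity

theorem pf_HP (hMN : T_MN) (hAQ4 : T_AQ4) (hTRB : T_TRB) (hPNB : T_PNB) (hRNB : T_RNB)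
    (hRZB : T_RZB) (hQPZ : T_QPZ) : T_HP := by
  classical
  intro s hs ε hε
  obtain ⟨C₁, hC₁, hR⟩ := hRNB s (by omega)
  obtain ⟨C₂, hC₂, hQ⟩ := hAQ4 s hs
  -- the choice of `d`
  set d : ℝ := min 1 (ε / (4 * C₁)) with hd
  have hd0 : 0 < d := lt_min one_pos (by positivity)
  have hd1 : d ≤ 1 := min_le_left _ _
  have hd2 : C₁ * d ≤ ε / 4 := by
    have : d ≤ ε / (4 * C₁) := min_le_right _ _
    calc C₁ * d ≤ C₁ * (ε / (4 * C₁)) := by gcongr
      _ = ε / 4 := by field_simp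
  obtain ⟨A₁, hA₁⟩ := hR d hd0 hd1
  -- the choice of `w₀`
  obtain ⟨w₁, hw₁⟩ := exists_nat_ge (4 * (2 : ℝ) ^ (2 * md s) * C₂ / ε)
  set w₀ : ℕ := w₁ + 1 with hw₀
  have hw1 : 1 ≤ w₀ := by omega
  have hw1' : (1 : ℝ) ≤ (w₀ : ℝ) := by exact_mod_cast hw1
  have hw2 : 4 * (2 : ℝ) ^ (2 * md s) * C₂ ≤ ε * (w₀ : ℝ) ^ 2 := by
    have h1 : 4 * (2 : ℝ) ^ (2 * md s) * C₂ ≤ w₁ * ε := by
      rwa [div_le_iff₀ hε] at hw₁
    have h2 : (w₁ : ℝ) ≤ (w₀ : ℝ) ^ 2 := by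
      have : (w₁ : ℝ) ≤ w₀ := by
        rw [hw₀]
        push_cast
        linarith
      nlinarith
    nlinarith
  -- the choice of `t`
  obtain ⟨t, ht⟩ := exists_nat_ge (4 * (w₀ + 1 : ℝ) * ((2 : ℝ) ^ (2 * md s) * (2 * s)) / ε)
  have ht2 : 4 * (w₀ + 1 : ℝ) * ((2 : ℝ) ^ (2 * md s) * (2 * s)) ≤ ε * (2 : ℝ) ^ t := by
    have h1 : 4 * (w₀ + 1 : ℝ) * ((2 : ℝ) ^ (2 * md s) * (2 * s)) ≤ t * ε := by
      rwa [div_le_iff₀ hε] at ht
    have h2 : (t : ℝ) ≤ (2 : ℝ) ^ t := by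
      have : t < 2 ^ t := Nat.lt_two_pow_self
      exact_mod_cast this.le
    nlinarith
  obtain ⟨r, hr0, hr⟩ := hMN s d t w₀ hs hd0
  obtain ⟨W₁, K, A₂, hW, hWp, hA₂⟩ := hr (ε / 4) (by positivity)
  refine ⟨K, A₁ + A₂ + w₀ ^ t + W₁, fun A hA => ?_⟩
  have hX0 : (0 : ℝ) ≤ (2 * (A : ℝ) + 1) ^ (2 * md s) := by positivity
  set X : ℝ := (2 * (A : ℝ) + 1) ^ (2 * md s) with hX
  -- the residues
  set E : Finset (Fin 2 → Mon s → ZMod W₁) :=
    Finset.univ.filter fun F : Fin 2 → Mon s → ZMod W₁ => 2 * am W₁ F < W₁ ^ (s - 2) with hE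
  have hE1 : (E.card : ℝ) * (w₀ : ℝ) ^ 2 ≤ C₂ * (W₁ : ℝ) ^ (2 * md s) := hQ W₁ w₀ hw1 hWp
  have hcov := card_cover (bx s A) (fun c => LS c ∧ ¬ SZ K A c) (fun c => RN d A c)
    (fun c => cm (ZMod W₁) c ∈ E) (fun (p : ℕ) c => NP t p c)
    (fun c => RB d r A c ∧ (∀ p : ℕ, p.Prime → p ≤ w₀ → PR t p c) ∧
      W₁ ^ (s - 2) ≤ 2 * am W₁ (cm (ZMod W₁) c) ∧ ¬ SZ K A c)
    ((range (w₀ + 1)).filter Nat.Prime) (by
      rintro c hc ⟨⟨h1, h2⟩, h3⟩
      rcases hRZB s A d c h1 with h | h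
      · by_cases hp : ∃ i ∈ (range (w₀ + 1)).filter Nat.Prime, NP t i c
        · exact Or.inr (Or.inl hp)
        by_cases he : cm (ZMod W₁) c ∈ E
        · exact Or.inr (Or.inr (Or.inl he))
        refine Or.inr (Or.inr (Or.inr ⟨RB_mono hr0.le h, fun p hp1 hp2 => ?_, ?_, h3⟩))
        · have : Fact p.Prime := ⟨hp1⟩
          rcases hQPZ s p t c (h2 p) with h | h
          · exact h
          · exact absurd ⟨p, mem_filter.2 ⟨mem_range.2 (by omega), hp1⟩, h⟩ hp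
        · rw [hE, mem_filter] at he
          by_contra hlt
          exact he ⟨mem_univ _, by omega⟩
      · exact Or.inl h)
  have b1 : (((bx s A).filter fun c => RN d A c).card : ℝ) ≤ ε / 4 * X := by
    have h := hA₁ A (by omega)
    refine h.trans ?_
    gcongr
  have b2 : ∀ p ∈ (range (w₀ + 1)).filter Nat.Prime,
      (((bx s A).filter fun c => NP t p c).card : ℝ) ≤
        (2 : ℝ) ^ (2 * md s) * (2 * s) * X / 2 ^ t := by
    intro p hp
    rw [mem_filter, mem_range] at hp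
    have hp2 := hp.2.two_le
    have hpt : p ^ t ≤ 2 * A + 1 := by
      have : p ^ t ≤ w₀ ^ t := Nat.pow_le_pow_left (by omega) t
      omega
    have h := hPNB s p t A (by omega) hp.2 hpt
    have h' : ((((bx s A).filter fun c => NP t p c).card : ℕ) : ℝ) * (p : ℝ) ^ t ≤
        2 ^ (2 * md s) * (2 * s) * X := by
      rw [hX]
      exact_mod_cast h
    rw [le_div_iff₀ (by positivity)]
    refine le_trans ?_ h'
    gcongr
    exact_mod_cast hp2
  have b2' : (∑ p ∈ (range (w₀ + 1)).filter Nat.Prime,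
      (((bx s A).filter fun c => NP t p c).card : ℝ)) ≤ ε / 4 * X := by
    refine (Finset.sum_le_card_nsmul _ _ _ b2).trans ?_
    rw [nsmul_eq_mul]
    have hc : ((((range (w₀ + 1)).filter Nat.Prime).card : ℕ) : ℝ) ≤ (w₀ : ℝ) + 1 := by
      have : ((range (w₀ + 1)).filter Nat.Prime).card ≤ w₀ + 1 :=
        (card_filter_le _ _).trans (by rw [card_range])
      exact_mod_cast this
    have h2t : (0 : ℝ) < 2 ^ t := by positivity
    have hq : (0 : ℝ) ≤ (2 : ℝ) ^ (2 * md s) * (2 * s) * X / 2 ^ t := by positivity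
    refine (mul_le_mul_of_nonneg_right hc hq).trans ?_
    rw [mul_div_assoc', div_le_iff₀ h2t]
    have h4 := mul_le_mul_of_nonneg_left ht2 (show (0 : ℝ) ≤ X / 4 by positivity)
    linarith
  have b3 : (((bx s A).filter fun c => cm (ZMod W₁) c ∈ E).card : ℝ) ≤ ε / 4 * X := by
    have h := hTRB s A W₁ E (by omega)
    have h' : ((((bx s A).filter fun c => cm (ZMod W₁) c ∈ E).card : ℕ) : ℝ) *
        (W₁ : ℝ) ^ (2 * md s) ≤ 2 ^ (2 * md s) * X * E.card := by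
      rw [hX]
      exact_mod_cast h
    have hW0 : (0 : ℝ) < (W₁ : ℝ) ^ (2 * md s) := by
      have : 0 < W₁ := Nat.pos_of_ne_zero (NeZero.ne W₁)
      positivity
    have hw0 : (0 : ℝ) < (w₀ : ℝ) ^ 2 := by positivity
    set n : ℝ := (((bx s A).filter fun c => cm (ZMod W₁) c ∈ E).card : ℝ) with hn
    have h1 : n * (w₀ : ℝ) ^ 2 * (W₁ : ℝ) ^ (2 * md s) ≤
        2 ^ (2 * md s) * X * C₂ * (W₁ : ℝ) ^ (2 * md s) := by
      calc n * (w₀ : ℝ) ^ 2 * (W₁ : ℝ) ^ (2 * md s) =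
          n * (W₁ : ℝ) ^ (2 * md s) * (w₀ : ℝ) ^ 2 := by ring
        _ ≤ 2 ^ (2 * md s) * X * E.card * (w₀ : ℝ) ^ 2 := by gcongr
        _ = 2 ^ (2 * md s) * X * (E.card * (w₀ : ℝ) ^ 2) := by ring
        _ ≤ 2 ^ (2 * md s) * X * (C₂ * (W₁ : ℝ) ^ (2 * md s)) := by gcongr
        _ = _ := by ring
    have h2 := le_of_mul_le_mul_right h1 hW0
    have h3 : n * (w₀ : ℝ) ^ 2 ≤ ε / 4 * X * (w₀ : ℝ) ^ 2 := by
      refine h2.trans ?_
      have h4 := mul_le_mul_of_nonneg_left hw2 (show (0 : ℝ) ≤ X / 4 by positivity)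
      linarith
    exact le_of_mul_le_mul_right h3 hw0
  have b4 := hA₂ A (by omega)
  have e1 : (((bx s A).filter fun c => LS c ∧ ¬ SZ K A c).card : ℝ) ≤
      ε / 4 * X + ε / 4 * X + ε / 4 * X + ε / 4 * X := by
    refine hcov.trans ?_
    refine add_le_add (add_le_add (add_le_add b1 b2') b3) ?_
    exact b4
  linarith

end Pool.Agent.H44.RQ
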